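import Pool.Agent.Y720.WL.Cy2
import Mathlib.RingTheory.Polynomial.Resultant.Basic

/-!
# Irreducible polynomials: the generic curve in a coordinate direction is smooth
-/

set_option autoImplicit false
set_option linter.unusedVariables false
set_option linter.unusedSectionVars false

namespace Pool.Agent.X292.CY

open Pool.Agent.Y720.MZ

/-- an irreducible polynomial and a polynomial which is not a multiple -/
theorem gauss {R : Type*} [CommRing R] [IsDomain R] [UniqueFactorizationMonoid R]
    {f g : Polynomial R} (hf : Irreducible f) (hd : f.natDegree ≠ 0) (h : ¬ f ∣ g) :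
    ∃ (a b : Polynomial R) (ρ : R), ρ ≠ 0 ∧ f * a + g * b = Polynomial.C ρ := by
  classical
  let _ : GCDMonoid R := UniqueFactorizationMonoid.toGCDMonoid R
  set L := FractionRing R
  have hp : f.IsPrimitive := hf.isPrimitive hd
  have hf' : Irreducible (f.map (algebraMap R L)) :=
    (hp.irreducible_iff_irreducible_map_fraction_map (K := L)).1 hf
  have hg' : ¬ f.map (algebraMap R L) ∣ g.map (algebraMap R L) := fun h' =>
    h (hp.dvd_of_fraction_map_dvd_fraction_map h')
  have hcop : IsCoprime (f.map (algebraMap R L)) (g.map (algebraMap R L)) :=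
    (hf'.coprime_iff_not_dvd).2 hg'
  obtain ⟨a, b, -, -, hab⟩ := Polynomial.exists_mul_add_mul_eq_C_resultant f g le_rfl le_rfl
    (Or.inl hd)
  refine ⟨a, b, _, fun h0 => ?_, hab⟩
  have h1 := Polynomial.resultant_ne_zero _ _ hcop
  apply h1
  have h2 := Polynomial.resultant_map_map f g f.natDegree g.natDegree (algebraMap R L)
  rw [Polynomial.natDegree_map_eq_of_injective (IsFractionRing.injective R L),
    Polynomial.natDegree_map_eq_of_injective (IsFractionRing.injective R L), h2, h0, map_zero]

section irr

variable {K : Type*} [Field K] [CharZero K] {α : Type*} [Fintype α] [DecidableEq α]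

/-- the polynomial as a polynomial in one of the variables -/
noncomputable def EE (j : α) :
    MvPolynomial α K ≃ₐ[K] Polynomial (MvPolynomial {i // i ≠ j} K) :=
  (MvPolynomial.renameEquiv K (Equiv.optionSubtypeNe j).symm).trans
    (MvPolynomial.optionEquivLeft K {i // i ≠ j})

lemma EE_C (j : α) (a : K) : EE j (MvPolynomial.C a) = Polynomial.C (MvPolynomial.C a) := by
  simp [EE, MvPolynomial.optionEquivLeft_C]

lemma EE_X_self (j : α) : EE j (MvPolynomial.X j : MvPolynomial α K) = Polynomial.X := by
  simp [EE, MvPolynomial.optionEquivLeft_X_none]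

lemma EE_X_ne (j i : α) (h : i ≠ j) : EE j (MvPolynomial.X i : MvPolynomial α K) =
    Polynomial.C (MvPolynomial.X ⟨i, h⟩) := by
  simp [EE, MvPolynomial.optionEquivLeft_X_some, Equiv.optionSubtypeNe_symm_of_ne h]

lemma EE_natDegree (j : α) (f : MvPolynomial α K) : (EE j f).natDegree = f.degreeOf j := by
  unfold EE
  rw [AlgEquiv.trans_apply, MvPolynomial.natDegree_optionEquivLeft]
  have h := MvPolynomial.degreeOf_rename_of_injective (p := f)
    (Equiv.optionSubtypeNe j).symm.injective j
  rw [Equiv.optionSubtypeNe_symm_self] at h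
  exact h

/-- the extension by zero of a point -/
def ext0 (j : α) (y : {i // i ≠ j} → K) : α → K := fun i => if h : i ≠ j then y ⟨i, h⟩ else 0

lemma rst_ext0 (j : α) (y : {i // i ≠ j} → K) (f : MvPolynomial α K) :
    rst f (ext0 j y) (Pi.single j 1) = (EE j f).map (MvPolynomial.eval y) := by
  induction f using MvPolynomial.induction_on with
  | C a =>
    rw [EE_C]
    simp [rst]
  | add p q hp hq =>
    rw [map_add, Polynomial.map_add, ← hp, ← hq]
    simp [rst]
  | mul_X p i hp =>
    rw [map_mul, Polynomial.map_mul, ← hp]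
    have h1 : rst (p * MvPolynomial.X i) (ext0 j y) (Pi.single j 1) =
        rst p (ext0 j y) (Pi.single j 1) * (Polynomial.C (ext0 j y i) +
          Polynomial.C ((Pi.single j 1 : α → K) i) * Polynomial.X) := by
      simp only [rst, map_mul, MvPolynomial.aeval_X]
    rw [h1]
    congr 1
    by_cases h : i = j
    · subst h
      rw [EE_X_self]
      simp [ext0]
    · rw [EE_X_ne j i h]
      simp [ext0, h]

/-- the generic curve is smooth, of the right degree -/
theorem exists_sep {f : MvPolynomial α K} (hf : Irreducible f) {j : α} (hj : f.degreeOf j ≠ 0) :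
    ∃ z : α → K, (rst f z (Pi.single j 1)).Separable ∧
      (rst f z (Pi.single j 1)).natDegree = f.degreeOf j := by
  set g := EE j f with hg
  have hgi : Irreducible g := (MulEquiv.irreducible_iff (EE j).toMulEquiv).2 hf
  have hgd : g.natDegree ≠ 0 := by rw [hg, EE_natDegree]; exact hj
  have hnd : ¬ g ∣ Polynomial.derivative g := by
    intro h
    have h1 : Polynomial.derivative g ≠ 0 := by
      intro h0
      exact hgd (Polynomial.natDegree_eq_zero_of_derivative_eq_zero h0)
    have h2 := Polynomial.natDegree_le_of_dvd h h1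
    have h3 := Polynomial.natDegree_derivative_lt hgd
    omega
  obtain ⟨a, b, ρ, hρ, hab⟩ := gauss hgi hgd hnd
  have hlc : g.leadingCoeff ≠ 0 := by
    rw [Ne, Polynomial.leadingCoeff_eq_zero]
    exact hgi.ne_zero
  obtain ⟨y, hy⟩ : ∃ y : {i // i ≠ j} → K, MvPolynomial.eval y (ρ * g.leadingCoeff) ≠ 0 := by
    by_contra hcon
    push Not at hcon
    apply mul_ne_zero hρ hlc
    apply MvPolynomial.funext
    intro y
    rw [hcon y, map_zero]
  rw [map_mul] at hy
  obtain ⟨hy1, hy2⟩ := ne_zero_and_ne_zero_of_mul hy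
  refine ⟨ext0 j y, ?_, ?_⟩
  · rw [rst_ext0, ← hg, Polynomial.separable_def, Polynomial.derivative_map]
    have h1 := congrArg (Polynomial.map (MvPolynomial.eval y)) hab
    rw [Polynomial.map_add, Polynomial.map_mul, Polynomial.map_mul, Polynomial.map_C] at h1
    have hu : IsUnit (MvPolynomial.eval y ρ) := isUnit_iff_ne_zero.2 hy1
    refine ⟨a.map (MvPolynomial.eval y) * Polynomial.C (MvPolynomial.eval y ρ)⁻¹,
      b.map (MvPolynomial.eval y) * Polynomial.C (MvPolynomial.eval y ρ)⁻¹, ?_⟩
    have h2 : Polynomial.C (MvPolynomial.eval y ρ) * Polynomial.C (MvPolynomial.eval y ρ)⁻¹ =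
        (1 : Polynomial K) := by
      rw [← Polynomial.C_mul, mul_inv_cancel₀ hy1, Polynomial.C_1]
    rw [← h2, ← h1]
    ring
  · rw [rst_ext0, ← hg, Polynomial.natDegree_map_of_leadingCoeff_ne_zero _ hy2, hg, EE_natDegree]

lemma pderiv_lt {f : MvPolynomial α K} {j : α} (hj : f.degreeOf j ≠ 0) :
    MvPolynomial.pderiv j f ≠ 0 ∧ ¬ f ∣ MvPolynomial.pderiv j f := by
  have hder : ∀ f : MvPolynomial α K,
      EE j (MvPolynomial.pderiv j f) = Polynomial.derivative (EE j f) := by
    intro f
    induction f using MvPolynomial.induction_on with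
    | C a => rw [MvPolynomial.pderiv_C, EE_C, Polynomial.derivative_C, map_zero]
    | add p q hp hq => rw [map_add, map_add, map_add, Polynomial.derivative_add, hp, hq]
    | mul_X p i hp =>
      rw [Derivation.leibniz, smul_eq_mul, smul_eq_mul, map_add, map_mul, map_mul, map_mul, hp,
        Polynomial.derivative_mul]
      by_cases h : i = j
      · subst h
        rw [MvPolynomial.pderiv_X_self, EE_X_self, Polynomial.derivative_X, map_one]
        ring
      · rw [MvPolynomial.pderiv_X_of_ne h, map_zero, EE_X_ne j i h, Polynomial.derivative_C]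
        ring
  have hgd : (EE j f).natDegree ≠ 0 := by rw [EE_natDegree]; exact hj
  have h1 : Polynomial.derivative (EE j f) ≠ 0 := by
    intro h0
    exact hgd (Polynomial.natDegree_eq_zero_of_derivative_eq_zero h0)
  refine ⟨fun h0 => h1 (by rw [← hder, h0, map_zero]), fun h => ?_⟩
  have h2 := Polynomial.natDegree_le_of_dvd ((hder f) ▸ map_dvd (EE j) h) h1
  have h3 := Polynomial.natDegree_derivative_lt hgd
  omega

/-- the condition for two variables -/
theorem nonprop {f : MvPolynomial α K} (hf : Irreducible f) {i j : α} (hi : f.degreeOf i ≠ 0)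
    (hj : f.degreeOf j ≠ 0) : f * MvPolynomial.pderiv i (MvPolynomial.pderiv j f) ≠
      MvPolynomial.pderiv i f * MvPolynomial.pderiv j f := by
  intro h
  have hp : Prime f := UniqueFactorizationMonoid.irreducible_iff_prime.1 hf
  rcases hp.dvd_or_dvd ⟨_, h.symm⟩ with h1 | h1
  · exact (pderiv_lt hi).2 h1
  · exact (pderiv_lt hj).2 h1

theorem NK_ne_irr {f : MvPolynomial α K} [Nonempty α] (hf : Irreducible f)
    (hd : ∀ j, 3 ≤ f.degreeOf j ∧ f.degreeOf j ≤ 4) : NK f ≠ 0 := by
  refine NK_ne (fun j => ⟨(hd j).1, (hd j).2, exists_sep hf ?_⟩) fun i j hij => nonprop hf ?_ ?_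
  · have := (hd j).1; omega
  · have := (hd i).1; omega
  · have := (hd j).1; omega

end irr

end Pool.Agent.X292.CY
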