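import Pool.Agent.X292.CY.Uni
import Pool.Agent.X292.CY.Irr
import Pool.Agent.Y447.CL.Small

/-!
# The torsion divisors of a double cover
-/

set_option autoImplicit false
set_option linter.unusedVariables false
set_option linter.unusedSectionVars false

open WeierstrassCurve

namespace Pool.Agent.X292.CY

open Pool.Agent.Y720.MZ

section red

/-- reduction modulo `w² - f` -/
lemma red {R : Type*} [CommRing R] (f : R) (G : Polynomial R) : ∃ u v : R,
    ∀ (S : Type) [CommRing S] (ψ : R →+* S) (w : S), w ^ 2 = ψ f →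
      Polynomial.eval₂ ψ w G = ψ u + ψ v * w := by
  induction G using Polynomial.induction_on' with
  | add p q hp hq =>
    obtain ⟨u, v, h⟩ := hp
    obtain ⟨u', v', h'⟩ := hq
    refine ⟨u + u', v + v', fun S _ ψ w hw => ?_⟩
    rw [Polynomial.eval₂_add, h S ψ w hw, h' S ψ w hw, map_add, map_add]
    ring
  | monomial n a =>
    rcases Nat.even_or_odd' n with ⟨k, hk | hk⟩
    · refine ⟨a * f ^ k, 0, fun S _ ψ w hw => ?_⟩
      rw [Polynomial.eval₂_monomial, hk, pow_mul, hw, map_mul, map_pow, map_zero]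
      ring
    · refine ⟨0, a * f ^ k, fun S _ ψ w hw => ?_⟩
      rw [Polynomial.eval₂_monomial, hk, pow_succ, pow_mul, hw, map_mul, map_pow, map_zero]
      ring

end red

section neg

lemma io_neg_aux {F : Type} [Field F] [CharZero F] [DecidableEq F] {a b c x y : F}
    (H : ∀ h, ∀ n : ℕ, n ≠ 0 → n • (.some x y h : Pt a b c) ≠ 0) :
    ∀ h, ∀ n : ℕ, n ≠ 0 → n • (.some x (-y) h : Pt a b c) ≠ 0 := by
  intro h n hn h0
  have h1 : n • (-(.some x (-y) h : Pt a b c)) = 0 := by rw [smul_neg, h0, neg_zero]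
  obtain ⟨h', e⟩ := neg_mk h
  obtain ⟨h'', e''⟩ := some_congr rfl (neg_neg y) e
  rw [e''] at h1
  exact H h'' n hn h1

lemma io_transport {F : Type} [Field F] [CharZero F] [DecidableEq F] {a b c x y a' b' c' x' y' : F}
    (ha : a = a') (hb : b = b') (hc : c = c') (hx : x = x') (hy : y = y')
    (H : ∀ h, ∀ n : ℕ, n ≠ 0 → n • (.some x y h : Pt a b c) ≠ 0) :
    ∀ h, ∀ n : ℕ, n ≠ 0 → n • (.some x' y' h : Pt a' b' c') ≠ 0 := by
  subst ha hb hc hx hy
  exact H

lemma iot_neg {F : Type} [Field F] [CharZero F] {w : F} {q : Fin 4 → F} (h : IOt (w, q)) :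
    IOt (-w, q) := by
  have e2 : tB (-w, q) = tB (w, q) := by simp [tB, rb]
  have e3 : tC (-w, q) = tC (w, q) := by simp [tC, rc]
  have e4 : tX (-w, q) = tX (w, q) := by simp [tX, xs]
  have e5 : tY (-w, q) = -tY (w, q) := by
    simp only [tY, ys, xs, neg_sq, mul_neg, div_neg]
  obtain ⟨h1, h2⟩ := h
  refine ⟨by rw [e2, e3]; exact h1, ?_⟩
  letI : DecidableEq F := Classical.decEq F
  exact io_transport rfl e2.symm e3.symm e4.symm e5.symm (io_neg_aux h2)

end neg

section tor

variable {K : Type*} [Field K] [CharZero K] {α : Type*} [Fintype α]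

/-- the polynomial in the parameters as a polynomial on the double cover -/
noncomputable def gz (f : MvPolynomial α K) (e : α → K) : PP →+* Polynomial (MvPolynomial α K) :=
  MvPolynomial.eval₂Hom (Int.castRingHom _)
    (fun o => o.elim Polynomial.X (fun i => Polynomial.C (gk f e ((i : ℕ) + 1))))

lemma gz_eval (f : MvPolynomial α K) (e : α → K) (g : PP) {F : Type} [Field F] [CharZero F]
    (φ : K →+* F) (z : α → F) (w : F) :
    Polynomial.eval₂ ((MvPolynomial.eval z).comp (MvPolynomial.map φ)) w (gz f e g) =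
      ev (th (MvPolynomial.map φ f) (fun a => φ (e a)) z w) g := by
  have h : (Polynomial.eval₂RingHom ((MvPolynomial.eval z).comp (MvPolynomial.map φ)) w).comp
      (gz f e) = ev (th (MvPolynomial.map φ f) (fun a => φ (e a)) z w) := by
    apply MvPolynomial.ringHom_ext
    · intro r
      simp [gz, ev]
    · rintro (_ | i)
      · simp [gz, ev, th]
      · simp only [gz, ev, th, cq, RingHom.comp_apply, MvPolynomial.eval₂Hom_X',
          Option.elim_some, Polynomial.coe_eval₂RingHom, Polynomial.eval₂_C]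
        rw [gk_map, gk_eval]
  exact congrArg (fun ψ => ψ g) h

/-- **The divisor of the points at which the difference is killed by `m + 1`.** -/
theorem exists_tor (f : MvPolynomial α K) (e : α → K) (m : ℕ) : ∃ N : MvPolynomial α K,
    (∀ (F : Type) [Field F] [CharZero F] [DecidableEq F] (φ : K →+* F) (z : α → F) (w : F),
      onX (MvPolynomial.map φ f) z w → w ≠ 0 →
      MvPolynomial.eval z (MvPolynomial.map φ N) ≠ 0 →
      ∀ h, (m + 1) • (.some (tX (th (MvPolynomial.map φ f) (fun a => φ (e a)) z w))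
        (tY (th (MvPolynomial.map φ f) (fun a => φ (e a)) z w)) h :
        Pt (tA (th (MvPolynomial.map φ f) (fun a => φ (e a)) z w))
        (tB (th (MvPolynomial.map φ f) (fun a => φ (e a)) z w))
        (tC (th (MvPolynomial.map φ f) (fun a => φ (e a)) z w))) ≠ 0) ∧
    (∀ (F : Type) [Field F] [CharZero F] (φ : K →+* F) (z : α → F) (w : F),
      onX (MvPolynomial.map φ f) z w → w ≠ 0 →
      IOt (th (MvPolynomial.map φ f) (fun a => φ (e a)) z w) →
      MvPolynomial.eval z (MvPolynomial.map φ N) ≠ 0) := by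
  obtain ⟨g, X, Y, hR⟩ := exists_rep m
  obtain ⟨u, v, huv⟩ := red f (gz f e g)
  have key : ∀ (F : Type) [Field F] [CharZero F] (φ : K →+* F) (z : α → F) (w : F),
      onX (MvPolynomial.map φ f) z w →
      MvPolynomial.eval z (MvPolynomial.map φ (u ^ 2 - f * v ^ 2)) =
        ev (th (MvPolynomial.map φ f) (fun a => φ (e a)) z w) g *
        ev (th (MvPolynomial.map φ f) (fun a => φ (e a)) z (-w)) g := by
    intro F _ _ φ z w hw
    have h1 : w ^ 2 = ((MvPolynomial.eval z).comp (MvPolynomial.map φ)) f := hw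
    have h2 : (-w) ^ 2 = ((MvPolynomial.eval z).comp (MvPolynomial.map φ)) f := by
      rw [neg_sq]; exact h1
    rw [← gz_eval, ← gz_eval, huv F _ w h1, huv F _ (-w) h2, map_sub, map_sub, map_pow, map_pow,
      map_mul, map_mul, map_pow, map_pow]
    simp only [RingHom.comp_apply] at h1 ⊢
    rw [← h1]
    ring
  refine ⟨u ^ 2 - f * v ^ 2, ?_, ?_⟩
  · intro F _ _ _ φ z w hw hw0 hN h h0
    rw [key F φ z w hw] at hN
    obtain ⟨h', e'⟩ := (hR F _ hw0 h).1 (left_ne_zero_of_mul hN)
    rw [e'] at h0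
    exact Affine.Point.some_ne_zero _ h0
  · intro F _ _ φ z w hw hw0 hio
    rw [key F φ z w hw]
    letI : DecidableEq F := Classical.decEq F
    have h2 := iot_neg hio
    refine mul_ne_zero ?_ ?_
    · exact (hR F _ hw0 (tns hw0 hio.1)).2 (hio.2 _)
    · exact (hR F _ (neg_ne_zero.2 hw0) (tns (neg_ne_zero.2 hw0) h2.1)).2 (h2.2 _)

variable [DecidableEq α]

lemma single_map2 {F : Type} [Field F] (φ : K →+* F) (b : α) :
    (fun a => φ ((Pi.single b 1 : α → K) a)) = Pi.single b 1 := by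
  funext a
  by_cases h : a = b
  · subst h; simp
  · rw [Pi.single_eq_of_ne h, Pi.single_eq_of_ne h, map_zero]

/-- a complex point with difference of infinite order in the direction `j` -/
theorem exists_io [Nontrivial α] {f : MvPolynomial α K} (hd : ∀ j, f.degreeOf j ≤ 4)
    (hN : NK f ≠ 0) (φ : K →+* ℂ) (j : α) : ∃ (z : α → ℂ) (w : ℂ),
      onX (MvPolynomial.map φ f) z w ∧ w ≠ 0 ∧
      IOt (th (MvPolynomial.map φ f) (fun a => φ ((Pi.single j 1 : α → K) a)) z w) := by
  have h1 : MvPolynomial.map φ (NK f) ≠ 0 := by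
    intro h0
    apply hN
    apply MvPolynomial.map_injective φ φ.injective
    rw [h0, map_zero]
  obtain ⟨z, hz⟩ : ∃ z : α → ℂ, MvPolynomial.eval z (MvPolynomial.map φ (NK f)) ≠ 0 := by
    by_contra hcon
    push Not at hcon
    apply h1
    apply MvPolynomial.funext
    intro x
    rw [hcon x, map_zero]
  obtain ⟨hf0, -, hTr⟩ := NK_spec hd φ hz
  obtain ⟨w, hw⟩ := IsAlgClosed.exists_pow_nat_eq (MvPolynomial.eval z (MvPolynomial.map φ f))
    (n := 2) (by norm_num)
  have hw0 : w ≠ 0 := by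
    rintro rfl
    apply hf0
    rw [← hw]; ring
  obtain ⟨i, hi⟩ := exists_ne j
  obtain ⟨⟨s₀, k1, k2, k3⟩, k4⟩ := hTr i j hi
  letI : DecidableEq ℂ := Classical.decEq _
  obtain ⟨u, Z, m1, m2, -, -, m3⟩ := loc_near (f := MvPolynomial.map φ f) (v := Pi.single i 1)
    (e := Pi.single j 1) (x₀ := z) (y₀ := w) hw hw0 k1 k2 k3 k4 (δ := 1) one_pos
  refine ⟨_, Z, m1, m2, ?_⟩
  rw [single_map2]
  exact m3

/-- **The countably many torsion divisors in the direction `j`.** -/
theorem torsion_divisors [Nontrivial α] {f : MvPolynomial α K} (hd : ∀ j, f.degreeOf j ≤ 4)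
    (hN : NK f ≠ 0) (hK : Nonempty (K →+* ℂ)) (j : α) :
    ∃ N : ℕ → MvPolynomial α K, (∀ k, N k ≠ 0) ∧
      ∀ (F : Type) [Field F] [CharZero F] (φ : K →+* F) (z : α → F) (w : F),
        onX (MvPolynomial.map φ f) z w → w ≠ 0 →
        Tq (MvPolynomial.map φ f) (Pi.single j 1) z ≠ 0 →
        (∀ k, MvPolynomial.eval z (MvPolynomial.map φ (N k)) ≠ 0) →
        IOt (th (MvPolynomial.map φ f) (Pi.single j 1) z w) := by
  obtain ⟨φ₀⟩ := hK
  choose N hN1 hN2 using fun m => exists_tor f (Pi.single j 1) m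
  refine ⟨N, fun k h0 => ?_, ?_⟩
  · obtain ⟨z, w, h1, h2, h3⟩ := exists_io hd hN φ₀ j
    apply hN2 k ℂ φ₀ z w h1 h2 h3
    rw [h0, map_zero, map_zero]
  · intro F _ _ φ z w hX hw hT hk
    have h2 := fun m => @hN1 m F _ _ (Classical.decEq F) φ z w hX hw (hk m)
    rw [single_map2] at h2
    refine ⟨?_, ?_⟩
    · let _ : DecidableEq F := Classical.decEq F
      rw [Tq_eq hX]; exact hT
    · intro h n hn
      obtain ⟨m, rfl⟩ := Nat.exists_eq_succ_of_ne_zero hn
      exact h2 m h

end tor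

end Pool.Agent.X292.CY
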