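import Pool.Agent.Y720.WL.Cy2

/-!
# Multiples of the difference of the two points as rational functions of the parameters
-/

set_option autoImplicit false
set_option linter.unusedVariables false
set_option linter.unusedSectionVars false

open WeierstrassCurve

namespace Pool.Agent.X292.CY

open Pool.Agent.Y720.MZ

/-- the polynomials in the parameters `w, q₁, …, q₄` -/
abbrev PP : Type := MvPolynomial (Option (Fin 4)) ℤ

/-- the value of a polynomial at the parameters -/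
noncomputable def ev {F : Type} [Field F] (θ : F × (Fin 4 → F)) : PP →+* F :=
  MvPolynomial.eval₂Hom (Int.castRingHom F) (fun o => o.elim θ.1 θ.2)

section ev

variable {F : Type} [Field F] (θ : F × (Fin 4 → F))

/-- the coordinate `w` -/
noncomputable def pw : PP := MvPolynomial.X none
/-- the coordinates `q` -/
noncomputable def pq (j : Fin 4) : PP := MvPolynomial.X (some j)

lemma ev_pw : ev θ pw = θ.1 := by simp [ev, pw]
lemma ev_pq (j : Fin 4) : ev θ (pq j) = θ.2 j := by simp [ev, pq]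

end ev

/-- the common denominator of the coordinates of the point -/
noncomputable def d0 : PP := 8 * pw ^ 3
/-- the numerator of the abscissa -/
noncomputable def x0 : PP := 2 * pw * (pq 0 ^ 2 - 4 * pw ^ 2 * pq 1)
/-- the numerator of the ordinate -/
noncomputable def y0 : PP := pq 0 * (pq 0 ^ 2 - 4 * pw ^ 2 * pq 1) + 8 * pw ^ 4 * pq 2
/-- the coefficients -/
noncomputable def pA : PP := pq 1
/-- the coefficients -/
noncomputable def pB : PP := pq 0 * pq 2 - 4 * pw ^ 2 * pq 3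

section base

variable {F : Type} [Field F] [CharZero F] {θ : F × (Fin 4 → F)}

lemma ev_d0 : ev θ d0 = 8 * θ.1 ^ 3 := by simp [d0, ev_pw, map_ofNat]

lemma ev_A : ev θ pA = tA θ := by simp [pA, ev_pq, tA]

lemma ev_B : ev θ pB = tB θ := by simp [pB, ev_pq, ev_pw, tB, rb, map_ofNat]

lemma ev_d0_ne (hw : θ.1 ≠ 0) : ev θ d0 ≠ 0 := by
  rw [ev_d0]
  exact mul_ne_zero (by norm_num) (pow_ne_zero 3 hw)

lemma ev_x0 (hw : θ.1 ≠ 0) : ev θ x0 / ev θ d0 = tX θ := by
  have h8 : (8 : F) ≠ 0 := by norm_num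
  have h4 : (4 : F) ≠ 0 := by norm_num
  rw [ev_d0]
  simp only [x0, map_mul, map_sub, map_pow, map_ofNat, ev_pw, ev_pq, tX, xs]
  field_simp
  ring

lemma ev_y0 (hw : θ.1 ≠ 0) : ev θ y0 / ev θ d0 = tY θ := by
  have h8 : (8 : F) ≠ 0 := by norm_num
  have h4 : (4 : F) ≠ 0 := by norm_num
  rw [ev_d0]
  simp only [y0, map_mul, map_sub, map_add, map_pow, map_ofNat, ev_pw, ev_pq, tY, ys, xs]
  field_simp
  ring

end base

/-- the polynomials `g, X, Y` give the multiple by `m + 1` -/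
def Rep (m : ℕ) (g X Y : PP) : Prop :=
  ∀ (F : Type) [Field F] [CharZero F] [DecidableEq F] (θ : F × (Fin 4 → F)), θ.1 ≠ 0 →
    ∀ h : (cv (tA θ) (tB θ) (tC θ)).toAffine.Nonsingular (tX θ) (tY θ),
      (ev θ g ≠ 0 → ∃ h', (m + 1) • (.some (tX θ) (tY θ) h : Pt (tA θ) (tB θ) (tC θ)) =
        .some (ev θ X / ev θ g) (ev θ Y / ev θ g) h') ∧
      ((∀ n : ℕ, n ≠ 0 → n • (.some (tX θ) (tY θ) h : Pt (tA θ) (tB θ) (tC θ)) ≠ 0) →
        ev θ g ≠ 0)

lemma rep_zero : Rep 0 d0 x0 y0 := by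
  intro F _ _ _ θ hw h
  refine ⟨fun _ => ?_, fun _ => ev_d0_ne hw⟩
  rw [ev_x0 hw, ev_y0 hw]
  exact ⟨h, by rw [zero_add, one_smul]⟩

lemma some_congr {F : Type} [Field F] [CharZero F] {a b c x y x' y' : F}
    {h : (cv a b c).toAffine.Nonsingular x y} {P : Pt a b c} (hx : x = x') (hy : y = y')
    (hP : P = .some x y h) : ∃ h', P = .some x' y' h' := by
  subst hx hy
  exact ⟨h, hP⟩

/-- doubling -/
lemma rep_one : ∃ g X Y, Rep 1 g X Y := by
  obtain ⟨U, dU⟩ : ∃ U : PP, U = 3 * x0 ^ 2 + 2 * pA * x0 * d0 + pB * d0 ^ 2 := ⟨_, rfl⟩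
  obtain ⟨V, dV⟩ : ∃ V : PP, V = 2 * y0 * d0 := ⟨_, rfl⟩
  obtain ⟨X'', dX⟩ : ∃ X'' : PP, X'' = U ^ 2 * d0 - pA * V ^ 2 * d0 - 2 * x0 * V ^ 2 := ⟨_, rfl⟩
  refine ⟨V ^ 3 * d0, X'' * V, -(U * (X'' - x0 * V ^ 2) + y0 * V ^ 3), ?_⟩
  intro F _ _ _ θ hw h
  have hd := ev_d0_ne hw
  have hx := ev_x0 hw
  have hy := ev_y0 hw
  have hV : ev θ V = 2 * ev θ y0 * ev θ d0 := by simp [dV, map_ofNat]
  have hU : ev θ U = 3 * ev θ x0 ^ 2 + 2 * tA θ * ev θ x0 * ev θ d0 + tB θ * ev θ d0 ^ 2 := by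
    simp [dU, ev_A, ev_B, map_ofNat]
  have hX : ev θ X'' = ev θ U ^ 2 * ev θ d0 - tA θ * ev θ V ^ 2 * ev θ d0 -
      2 * ev θ x0 * ev θ V ^ 2 := by simp [dX, ev_A, map_ofNat]
  refine ⟨fun hg => ?_, fun hn => ?_⟩
  · rw [map_mul, map_pow] at hg
    have hV0 : ev θ V ≠ 0 := fun h0 => hg (by rw [h0]; ring)
    have hy2 : 2 * tY θ ≠ 0 := by
      intro h0
      apply hV0
      rw [hV]
      rw [← hy, mul_div_assoc', div_eq_zero_iff] at h0
      rcases h0 with h0 | h0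
      · rw [h0, zero_mul]
      · exact absurd h0 hd
    obtain ⟨h2, e2⟩ := dbl_mk h hy2 (ℓ := ev θ U / ev θ V) (by
      rw [← hx, ← hy]
      have h3 : ev θ U / ev θ V * (2 * (ev θ y0 / ev θ d0)) = ev θ U / ev θ V *
        (ev θ V / ev θ d0 ^ 2) := by
        rw [hV]; field_simp
      rw [h3, hU]
      field_simp)
    have e3 : (1 + 1) • (.some (tX θ) (tY θ) h : Pt (tA θ) (tB θ) (tC θ)) = _ :=
      (two_nsmul _).trans e2
    refine some_congr ?_ ?_ e3
    · rw [← hx, map_mul, map_mul, map_pow, hX]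
      field_simp
      ring
    · rw [← hx, ← hy, map_neg, map_add, map_mul, map_sub, map_mul, map_mul, map_mul, map_pow,
        map_pow, hX]
      field_simp
      ring
  · rw [map_mul, map_pow]
    refine mul_ne_zero (pow_ne_zero 3 ?_) hd
    rw [hV]
    refine mul_ne_zero (fun h0 => ?_) hd
    apply hn 2 two_ne_zero
    rw [two_nsmul]
    apply dbl_zero h
    rw [← hy, mul_div_assoc', h0, zero_div]

/-- adding the point -/
lemma rep_succ {m : ℕ} (hm : m ≠ 0) {g X Y : PP} (hR : Rep m g X Y) :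
    ∃ g' X' Y', Rep (m + 1) g' X' Y' := by
  obtain ⟨U, dU⟩ : ∃ U : PP, U = Y * d0 - y0 * g := ⟨_, rfl⟩
  obtain ⟨V, dV⟩ : ∃ V : PP, V = X * d0 - x0 * g := ⟨_, rfl⟩
  obtain ⟨X'', dX⟩ : ∃ X'' : PP,
    X'' = U ^ 2 * g * d0 - pA * V ^ 2 * g * d0 - X * V ^ 2 * d0 - x0 * V ^ 2 * g := ⟨_, rfl⟩
  refine ⟨V ^ 3 * g * d0, X'' * V, -(U * (X'' - X * V ^ 2 * d0) + Y * V ^ 3 * d0), ?_⟩
  intro F _ _ _ θ hw h
  obtain ⟨hR1, hR2⟩ := hR F θ hw h
  have hd := ev_d0_ne hw
  have hx := ev_x0 hw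
  have hy := ev_y0 hw
  have hV : ev θ V = ev θ X * ev θ d0 - ev θ x0 * ev θ g := by simp [dV]
  have hU : ev θ U = ev θ Y * ev θ d0 - ev θ y0 * ev θ g := by simp [dU]
  have hX : ev θ X'' = ev θ U ^ 2 * ev θ g * ev θ d0 - tA θ * ev θ V ^ 2 * ev θ g * ev θ d0 -
      ev θ X * ev θ V ^ 2 * ev θ d0 - ev θ x0 * ev θ V ^ 2 * ev θ g := by simp [dX, ev_A]
  refine ⟨fun hg' => ?_, fun hn => ?_⟩
  · rw [map_mul, map_mul, map_pow] at hg'
    have hV0 : ev θ V ≠ 0 := fun h0 => hg' (by rw [h0]; ring)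
    have hg : ev θ g ≠ 0 := fun h0 => hg' (by rw [h0]; ring)
    obtain ⟨h1, e1⟩ := hR1 hg
    have hne : ev θ X / ev θ g ≠ tX θ := by
      rw [← hx]
      intro h0
      apply hV0
      rw [div_eq_div_iff hg hd] at h0
      rw [hV]
      linear_combination h0
    obtain ⟨h2, e2⟩ := add_mk h1 h hne (ℓ := ev θ U / ev θ V) (by
      rw [← hx, ← hy]
      have h3 : ev θ X / ev θ g - ev θ x0 / ev θ d0 = ev θ V / (ev θ g * ev θ d0) := by
        rw [hV]; field_simp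
      have h4 : ev θ Y / ev θ g - ev θ y0 / ev θ d0 = ev θ U / (ev θ g * ev θ d0) := by
        rw [hU]; field_simp
      rw [h3, h4]
      field_simp)
    have e3 := (succ_nsmul (.some (tX θ) (tY θ) h : Pt (tA θ) (tB θ) (tC θ)) (m + 1)).trans
      ((congrArg (· + (.some (tX θ) (tY θ) h : Pt (tA θ) (tB θ) (tC θ))) e1).trans e2)
    refine some_congr ?_ ?_ e3
    · rw [← hx, map_mul, map_mul, map_mul, map_pow, hX]
      field_simp
    · rw [map_neg, map_add, map_mul, map_sub, map_mul, map_mul, map_mul, map_mul, map_mul,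
        map_mul, map_pow, map_pow, hX, ← hx]
      field_simp
  · have hg := hR2 hn
    obtain ⟨h1, e1⟩ := hR1 hg
    rw [map_mul, map_mul, map_pow]
    refine mul_ne_zero (mul_ne_zero (pow_ne_zero 3 fun hV0 => ?_) hg) hd
    have hxx : ev θ X / ev θ g = tX θ := by
      rw [← hx, div_eq_div_iff hg hd]
      rw [hV] at hV0
      linear_combination hV0
    obtain ⟨h1', e1'⟩ := some_congr hxx rfl e1
    rcases eq_or_neg h1' h with e | e
    · apply hn m hm
      have h5 := e1'.trans e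
      rw [succ_nsmul] at h5
      exact add_eq_right.1 h5
    · apply hn (m + 2) (by omega)
      have h5 := e1'.trans e
      rw [show m + 2 = (m + 1) + 1 from rfl, succ_nsmul, h5, neg_add_cancel]

theorem exists_rep (m : ℕ) : ∃ g X Y, Rep m g X Y := by
  induction m with
  | zero => exact ⟨_, _, _, rep_zero⟩
  | succ m ih =>
    rcases Nat.eq_zero_or_pos m with rfl | hm
    · exact rep_one
    · obtain ⟨g, X, Y, h⟩ := ih
      exact rep_succ hm.ne' h

end Pool.Agent.X292.CY
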